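import Mathlib
import Pool.Agent.H868R3.GPD.Weight

/-!
# The de Rham-Betti conjecture for motives of abelian varieties with abelian CM field
-/

set_option linter.unusedSectionVars false
set_option linter.unusedVariables false

namespace Pool.Agent.Results.MP_470b79_ag.FullOnTensors

open NumberField Pool.Agent.H204R3.CM Pool.Agent.H868R3.GPC Pool.Agent.H868R3.GPD

/-- The rational multilinear forms on the homology `J → L`, in variables indexed by `κ`. -/
abbrev Form (L J κ : Type) [Field L] [NumberField L] : Type :=
  MultilinearMap ℚ (fun _ : κ => J → L) ℚ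

/-- Let `T` be the tangent space of a complex torus, `W` its rational homology and `per : W → T`
the inclusion. A rational form on `W`, in variables indexed by `κ`, the variables with `ε l = -1`
being regarded as elements of the dual, is a Hodge class if it extends to a real multilinear form
on the tangent space which is invariant under the action of the complex numbers of absolute
value `1` (the action on the dual being the contragredient one). -/
def HodgeT {W T : Type} [AddCommGroup W] [AddCommGroup T] [Module ℂ T]
    (per : W →+ T) {κ : Type} (ε : κ → ℤ) (f : (κ → W) → ℚ) : Prop :=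
  ∃ ψ : MultilinearMap ℝ (fun _ : κ => T) ℝ, (∀ v : κ → W, ψ (fun l => per (v l)) = f v) ∧
    ∀ z : ℂ, ‖z‖ = 1 → ∀ u : κ → T, ψ (fun l => z ^ ε l • u l) = ψ u

/-- All de Rham-Betti homomorphisms `h¹(B) → h¹(C)` are homomorphisms of Hodge structures, for all
abelian varieties `B` and `C` over `ℚbar` with complex multiplication by `L`. -/
def HomFull {L : Type} [Field L] [NumberField L] (P : Periods L) : Prop :=
  ∀ (t : Fin 2 → CMType L) (f : Form L (Fin 2) (Fin 2)),
    IsDRB P t ![1, -1] 0 f → HodgeT (per (typeFam L) t) ![1, -1] f

/-- The form `f` is zero, or of weight zero and a Hodge class. -/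
def IsHodgeZero {L J κ : Type} [Field L] [NumberField L] [Fintype J] [Fintype κ] [DecidableEq κ]
    (t : J → CMType L) (ε : κ → ℤ) (k : ℤ) (f : Form L J κ) : Prop :=
  f = 0 ∨ (∑ l, ε l = 2 * k ∧ HodgeT (per (typeFam L) t) ε f)

/-- **The de Rham-Betti conjecture for CM motives.** Let `L` be a CM field which is an abelian
extension of the rational numbers. Assume that all de Rham-Betti homomorphisms `h¹(B) → h¹(C)` are
homomorphisms of Hodge structures, for all abelian varieties `B` and `C` over `ℚbar` with complex
multiplication by `L`. Let `M = h¹(A)`, where `A` is a product of abelian varieties with complex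
multiplication by `L`. Then the de Rham-Betti classes on all the tensor spaces
`M^{⊗n} ⊗ (M^∨)^{⊗m} (k)` are the Hodge classes (of weight zero). -/
theorem result (L : Type) [Field L] [NumberField L] [IsCMField L] [IsGalois ℚ L]
    (hab : ∀ σ τ : L ≃ₐ[ℚ] L, σ * τ = τ * σ) (P : Periods L) (h1 : HomFull P)
    (J κ : Type) [Fintype J] [Fintype κ] [DecidableEq κ] (t : J → CMType L) (ε : κ → ℤ) (k : ℤ)
    (f : Form L J κ) : IsDRB P t ε k f ↔ IsHodgeZero t ε k f := by
  have hInd : Indep P := indep_of_hom hab P h1
  constructor
  · intro hf
    by_cases hf0 : f = 0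
    · exact Or.inl hf0
    · have hk := weight_of_drb t hab P ε k f hf hf0
      exact Or.inr ⟨hk, (drb_iff_hodge t hab P hInd ε k hk f).1 hf⟩
  · rintro (rfl | ⟨hk, hf⟩)
    · refine ⟨fun _ => 0, fun _ => isAlgebraic_zero, fun v => ?_⟩
      simp
    · exact (drb_iff_hodge t hab P hInd ε k hk f).2 hf

end Pool.Agent.Results.MP_470b79_ag.FullOnTensors
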